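import Pool.Agent.Helper5.ST.GoalsA

/-! MP_f1caa3_al, packet SEQ. -/

namespace Pool.Agent.Helper89.ST

open Pool.Agent.Helper5.ST
open scoped InnerProductSpace

universe u

section
variable {V : Type u} [NormedAddCommGroup V] [InnerProductSpace ℝ V]

theorem cs (A : V →ₗ[ℝ] V) (hs : ∀ v v', ⟪A v, v'⟫_ℝ = ⟪v, A v'⟫_ℝ) (hp : ∀ v, 0 ≤ ⟪A v, v⟫_ℝ)
    (x y : V) : ⟪A x, y⟫_ℝ ^ 2 ≤ ⟪A x, x⟫_ℝ * ⟪A y, y⟫_ℝ := by
  have h0 : ∀ t : ℝ, 0 ≤ ⟪A y, y⟫_ℝ * (t * t) + (2 * ⟪A x, y⟫_ℝ) * t + ⟪A x, x⟫_ℝ := by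
    intro t
    have h1 := hp (x + t • y)
    have h2 : ⟪A (x + t • y), x + t • y⟫_ℝ =
        ⟪A y, y⟫_ℝ * (t * t) + (2 * ⟪A x, y⟫_ℝ) * t + ⟪A x, x⟫_ℝ := by
      have h3 : ⟪A y, x⟫_ℝ = ⟪A x, y⟫_ℝ := by rw [hs, real_inner_comm]
      simp only [map_add, map_smul, inner_add_left, inner_add_right, real_inner_smul_left,
        real_inner_smul_right, h3]
      ring
    rwa [h2] at h1
  have h3 := discrim_le_zero h0
  unfold discrim at h3
  nlinarith [h3]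

end

theorem seq : SSeq.{u} := by
  intro V _ _ Q hs hp hle δ r hr
  have hspow : ∀ (n : ℕ) (v v' : V), ⟪(Q ^ n) v, v'⟫_ℝ = ⟪v, (Q ^ n) v'⟫_ℝ := by
    intro n
    induction n with
    | zero => intro v v'; simp
    | succ n ih =>
      intro v v'
      rw [pow_succ, Module.End.mul_apply, ih, hs, ← Module.End.mul_apply, ← pow_succ', ← pow_succ]
  have hm : ∀ a b : ℕ, ⟪(Q ^ a) δ, (Q ^ b) δ⟫_ℝ = ⟪(Q ^ (a + b)) δ, δ⟫_ℝ := by
    intro a b
    rw [← hspow b, ← Module.End.mul_apply, ← pow_add, add_comm b a]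
  have hQ : ∀ n : ℕ, Q ((Q ^ n) δ) = (Q ^ (n + 1)) δ := by
    intro n
    rw [pow_succ', Module.End.mul_apply]
  -- the two positive forms
  have hA2 : ∀ v, ⟪Q v, Q v⟫_ℝ ≤ ⟪Q v, v⟫_ℝ := by
    intro v
    have h1 := cs Q hs hp v (Q v)
    have h2 := hle (Q v)
    rw [← real_inner_self_eq_norm_sq] at h2
    have h3 := hp v
    have h4 : 0 ≤ ⟪Q v, Q v⟫_ℝ := real_inner_self_nonneg
    rcases h4.eq_or_lt with h5 | h5
    · rw [← h5]
      exact h3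
    · have h6 : ⟪Q v, Q v⟫_ℝ ^ 2 ≤ ⟪Q v, v⟫_ℝ * ⟪Q v, Q v⟫_ℝ :=
        h1.trans (mul_le_mul_of_nonneg_left h2 h3)
      rw [sq] at h6
      exact le_of_mul_le_mul_right h6 h5
  have s1 : ∀ v v', ⟪(LinearMap.id - Q : V →ₗ[ℝ] V) v, v'⟫_ℝ =
      ⟪v, (LinearMap.id - Q : V →ₗ[ℝ] V) v'⟫_ℝ := by
    intro v v'
    simp only [LinearMap.sub_apply, LinearMap.id_apply, inner_sub_left, inner_sub_right, hs]
  have p1 : ∀ v, 0 ≤ ⟪(LinearMap.id - Q : V →ₗ[ℝ] V) v, v⟫_ℝ := by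
    intro v
    simp only [LinearMap.sub_apply, LinearMap.id_apply, inner_sub_left]
    have := hle v
    rw [← real_inner_self_eq_norm_sq] at this
    linarith
  have s2 : ∀ v v', ⟪(Q - Q * Q : V →ₗ[ℝ] V) v, v'⟫_ℝ = ⟪v, (Q - Q * Q : V →ₗ[ℝ] V) v'⟫_ℝ := by
    intro v v'
    simp only [LinearMap.sub_apply, Module.End.mul_apply, inner_sub_left, inner_sub_right, hs]
  have p2 : ∀ v, 0 ≤ ⟪(Q - Q * Q : V →ₗ[ℝ] V) v, v⟫_ℝ := by
    intro v
    simp only [LinearMap.sub_apply, Module.End.mul_apply, inner_sub_left]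
    have := hA2 v
    rw [hs (Q v) v]
    linarith
  -- values of the forms
  have v1 : ∀ a b : ℕ, ⟪(LinearMap.id - Q : V →ₗ[ℝ] V) ((Q ^ a) δ), (Q ^ b) δ⟫_ℝ = r (a + b) := by
    intro a b
    simp only [LinearMap.sub_apply, LinearMap.id_apply, inner_sub_left]
    rw [hQ, hm, hm, hr]
    congr 4
    ring
  have v2 : ∀ a b : ℕ, ⟪(Q - Q * Q : V →ₗ[ℝ] V) ((Q ^ a) δ), (Q ^ b) δ⟫_ℝ = r (a + b + 1) := by
    intro a b
    simp only [LinearMap.sub_apply, Module.End.mul_apply, inner_sub_left]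
    rw [hQ, hQ, hm, hm, hr, show a + 1 + b = a + b + 1 by ring,
      show a + 1 + 1 + b = a + b + 1 + 1 by ring]
  refine ⟨?_, ?_, ?_⟩
  · intro j
    rcases Nat.even_or_odd' j with ⟨i, rfl | rfl⟩
    · have := p1 ((Q ^ i) δ)
      rwa [v1, ← two_mul] at this
    · have := p2 ((Q ^ i) δ)
      rwa [v2, ← two_mul] at this
  · intro j
    have hy : ∀ a b : ℕ, ⟪(Q ^ a) δ - (Q ^ (a + 1)) δ, (Q ^ b) δ - (Q ^ (b + 1)) δ⟫_ℝ =
        r (a + b) - r (a + b + 1) := by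
      intro a b
      simp only [inner_sub_left, inner_sub_right]
      rw [hm, hm, hm, hm, hr, hr, show a + (b + 1) = a + b + 1 by ring,
        show a + 1 + b = a + b + 1 by ring, show a + 1 + (b + 1) = a + b + 1 + 1 by ring]
    rcases Nat.even_or_odd' j with ⟨i, rfl | rfl⟩
    · have h1 := hy i i
      rw [← two_mul] at h1
      have h2 : 0 ≤ ⟪(Q ^ i) δ - (Q ^ (i + 1)) δ, (Q ^ i) δ - (Q ^ (i + 1)) δ⟫_ℝ :=
        real_inner_self_nonneg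
      linarith
    · have h1 := hy (i + 1) i
      have h2 := hp ((Q ^ i) δ - (Q ^ (i + 1)) δ)
      rw [map_sub, hQ, hQ, h1] at h2
      rw [show i + 1 + i = 2 * i + 1 by ring] at h2
      linarith
  · intro j
    rcases Nat.even_or_odd' j with ⟨i, rfl | rfl⟩
    · have h1 := cs _ s1 p1 ((Q ^ i) δ) ((Q ^ (i + 1)) δ)
      rw [v1, v1, v1] at h1
      rw [show i + (i + 1) = 2 * i + 1 by ring, show i + i = 2 * i by ring,
        show i + 1 + (i + 1) = 2 * i + 2 by ring] at h1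
      exact h1
    · have h1 := cs _ s2 p2 ((Q ^ i) δ) ((Q ^ (i + 1)) δ)
      rw [v2, v2, v2] at h1
      rw [show i + (i + 1) + 1 = 2 * i + 1 + 1 by ring, show i + i + 1 = 2 * i + 1 by ring,
        show i + 1 + (i + 1) + 1 = 2 * i + 1 + 2 by ring] at h1
      exact h1

end Pool.Agent.Helper89.ST
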